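import Pool.Agent.X60.GN.Spec
import Pool.Agent.X328.TAU.Stm

/-!
# Project TAU, part SPEC: algebraic relations at special parameters (adapted from `X60.GN.Spec`)
-/

set_option autoImplicit false

universe u

namespace Pool.Agent.X193.TAU

open Finset Polynomial
open Pool.Agent.X328.TAU Pool.Agent.X60.GN
open Pool.Agent.X328.GN (Ix)

theorem t_SPEC (hA : S_ALG) (hC0 : S_CHI.{0, 0}) (hC : S_CHI.{0, u}) : S_SPEC.{u} := by
  intro d hd
  obtain ⟨h1, h2, h3⟩ := hA d hd
  let i0 : Ix d := Sum.inr ⟨d - 2, by omega⟩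
  let r : MvPolynomial (Ix d) ℚ :=
    (chi2 d (fun i => (MvPolynomial.X i : MvPolynomial (Ix d) ℚ))).coeff (d ^ 2)
  let a : Option (Fin (d ^ 2 + 1)) → MvPolynomial (Ix d) ℚ := fun j =>
    match j with
    | none => MvPolynomial.X i0 * r
    | some j => (chi2 d (fun i => (MvPolynomial.X i : MvPolynomial (Ix d) ℚ))).coeff j
  -- the values at an image
  have hval : ∀ (K : Type u) [Field K] (φ : MvPolynomial (Ix d) ℚ →+* K), φ r ≠ 0 →
      vals d hd (fun i => φ (MvPolynomial.X i)) = fun j => φ (a j) / φ r := by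
    intro K _ φ hr
    have h5 := (hC.1 (MvPolynomial (Ix d) ℚ) K φ d (fun i => MvPolynomial.X i)).2.2.2
    have hchi : ∀ j, (chi2 d (fun i => φ (MvPolynomial.X i))).coeff j =
        φ ((chi2 d (fun i => (MvPolynomial.X i : MvPolynomial (Ix d) ℚ))).coeff j) := by
      intro j
      rw [← h5, coeff_map]
    funext j
    rcases j with _ | j
    · show φ (MvPolynomial.X i0) = φ (MvPolynomial.X i0 * r) / φ r
      rw [map_mul, mul_div_assoc, div_self hr, mul_one]
    · show (chi2 d (fun i => φ (MvPolynomial.X i))).coeff j /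
        (chi2 d (fun i => φ (MvPolynomial.X i))).coeff (d ^ 2) = _
      rw [hchi, hchi]
  have hval0 : ∀ (K : Type) [Field K] (φ : MvPolynomial (Ix d) ℚ →+* K), φ r ≠ 0 →
      vals d hd (fun i => φ (MvPolynomial.X i)) = fun j => φ (a j) / φ r := by
    intro K _ φ hr
    have h5 := (hC0.1 (MvPolynomial (Ix d) ℚ) K φ d (fun i => MvPolynomial.X i)).2.2.2
    have hchi : ∀ j, (chi2 d (fun i => φ (MvPolynomial.X i))).coeff j =
        φ ((chi2 d (fun i => (MvPolynomial.X i : MvPolynomial (Ix d) ℚ))).coeff j) := by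
      intro j
      rw [← h5, coeff_map]
    funext j
    rcases j with _ | j
    · show φ (MvPolynomial.X i0) = φ (MvPolynomial.X i0 * r) / φ r
      rw [map_mul, mul_div_assoc, div_self hr, mul_one]
    · show (chi2 d (fun i => φ (MvPolynomial.X i))).coeff j /
        (chi2 d (fun i => φ (MvPolynomial.X i))).coeff (d ^ 2) = _
      rw [hchi, hchi]
  have hinj : Function.Injective (algebraMap (MvPolynomial (Ix d) ℚ)
      (FractionRing (MvPolynomial (Ix d) ℚ))) := IsFractionRing.injective _ _
  have hr0 : algebraMap (MvPolynomial (Ix d) ℚ) (FractionRing (MvPolynomial (Ix d) ℚ)) r ≠ 0 := by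
    intro h
    exact h1 (hinj (by rw [map_zero]; exact h))
  have hfr := hval0 (FractionRing (MvPolynomial (Ix d) ℚ)) (algebraMap _ _) hr0
  have h4 : ∀ i : Ix d, ∃ (M : ℕ) (G : ℕ → MvPolynomial (Option (Fin (d ^ 2 + 1))) ℚ)
      (e : MvPolynomial (Ix d) ℚ), e ≠ 0 ∧ ∀ (K : Type u) [Field K] [Algebra ℚ K]
      (φ : MvPolynomial (Ix d) ℚ →+* K), φ r ≠ 0 → φ e ≠ 0 →
      (∃ m ≤ M, MvPolynomial.aeval (fun j => φ (a j) / φ r) (G m) ≠ 0) ∧
      ∑ m ∈ range (M + 1), MvPolynomial.aeval (fun j => φ (a j) / φ r)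
          (G m) * φ (MvPolynomial.X i) ^ m = 0 := by
    intro i
    refine alg_spec (L := FractionRing (MvPolynomial (Ix d) ℚ)) a r (MvPolynomial.X i) h1 ?_
    have h5 := h3 i
    rw [hfr] at h5
    exact h5
  choose M G e he hK using h4
  refine ⟨r *
    (Ph2 d (fun i => (MvPolynomial.X i : MvPolynomial (Ix d) ℚ))).coeff (d ^ 2) * ∏ i, e i,
    univ.sup M, fun i m => if m ≤ M i then G i m else 0, ?_, ?_⟩
  · exact mul_ne_zero (mul_ne_zero h1 h2) (prod_ne_zero_iff.mpr fun i _ => he i)
  · intro K _ _ κ hD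
    let φ : MvPolynomial (Ix d) ℚ →+* K := (MvPolynomial.aeval κ : MvPolynomial (Ix d) ℚ →ₐ[ℚ] K)
    have hφ : ∀ p, MvPolynomial.aeval κ p = φ p := fun p => rfl
    have hX : (fun i => φ (MvPolynomial.X i)) = κ := by
      funext i
      exact MvPolynomial.aeval_X κ i
    rw [hφ, map_mul, map_mul, map_prod] at hD
    have hD1 := left_ne_zero_of_mul (left_ne_zero_of_mul hD)
    have hD2 := right_ne_zero_of_mul (left_ne_zero_of_mul hD)
    have hD3 := right_ne_zero_of_mul hD
    have hchi : ∀ j, (chi2 d κ).coeff j =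
        φ ((chi2 d (fun i => (MvPolynomial.X i : MvPolynomial (Ix d) ℚ))).coeff j) := by
      intro j
      have h5 := (hC.1 (MvPolynomial (Ix d) ℚ) K φ d (fun i => MvPolynomial.X i)).2.2.2
      rw [hX] at h5
      rw [← h5, coeff_map]
    have hPh : ∀ j, (Ph2 d κ).coeff j =
        φ ((Ph2 d (fun i => (MvPolynomial.X i : MvPolynomial (Ix d) ℚ))).coeff j) := by
      intro j
      have h5 := (hC.1 (MvPolynomial (Ix d) ℚ) K φ d (fun i => MvPolynomial.X i)).2.2.1
      rw [hX] at h5
      rw [← h5, coeff_map]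
    refine ⟨?_, ?_, ?_⟩
    · rw [hchi]
      exact hD1
    · rw [hPh]
      exact hD2
    · intro i
      obtain ⟨⟨m, hm, hmne⟩, hrel⟩ := hK i K φ hD1 (prod_ne_zero_iff.mp hD3 i (mem_univ i))
      have hM : M i ≤ univ.sup M := le_sup (mem_univ i)
      have hfun : vals d hd κ = fun j => φ (a j) / φ r := by
        have := hval K φ hD1
        rw [hX] at this
        exact this
      have hXi : φ (MvPolynomial.X i) = κ i := congrFun hX i
      rw [hfun]
      refine ⟨⟨m, hm.trans hM, ?_⟩, ?_⟩
      · beta_reduce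
        rw [if_pos hm]
        exact hmne
      · rw [hXi] at hrel
        have hsub : range (M i + 1) ⊆ range (univ.sup M + 1) :=
          range_subset_range.mpr (Nat.add_le_add_right hM 1)
        rw [← hrel]
        symm
        apply sum_subset_zero_on_sdiff hsub
        · intro m' hm'
          have h6 : ¬ m' ≤ M i := by
            have := (mem_sdiff.mp hm').2
            rw [mem_range] at this
            omega
          beta_reduce
          rw [if_neg h6, map_zero, zero_mul]
        · intro m' hm'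
          have h6 : m' ≤ M i := by
            rw [mem_range] at hm'
            omega
          beta_reduce
          rw [if_pos h6]

end Pool.Agent.X193.TAU
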